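import Mathlib
import Pool.Agent.R784.Bell.Rec
import Pool.Agent.R784.Bell.Comp

/-!
MP_68af1b_co, Q1 (negative answer): the restricted Bell polynomial `B_{718,≤5}(x)` has a
non-real root.  Paper proof and computation: helper137.
-/

open Finset Polynomial

namespace Pool.Agent.R784.Bell

/-- Laguerre's expression. -/
noncomputable def Lag (p : ℝ[X]) (x : ℝ) : ℝ :=
  (derivative p).eval x * (derivative p).eval x - p.eval x * (derivative (derivative p)).eval x

lemma Lag_mul (p q : ℝ[X]) (x : ℝ) :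
    Lag (p * q) x = (q.eval x) ^ 2 * Lag p x + (p.eval x) ^ 2 * Lag q x := by
  simp only [Lag, derivative_mul, derivative_add, eval_add, eval_mul]
  ring

lemma Lag_prod (s : Multiset ℝ) (x : ℝ) : 0 ≤ Lag (s.map fun r => X - C r).prod x := by
  induction s using Multiset.induction_on with
  | empty => simp [Lag]
  | cons a s ih =>
    rw [Multiset.map_cons, Multiset.prod_cons, Lag_mul]
    have h1 : 0 ≤ Lag (X - C a) x := by simp [Lag]
    positivity

theorem laguerre (p : ℝ[X]) (h : ∀ z : ℂ, aeval z p = 0 → z.im = 0) (x : ℝ) : 0 ≤ Lag p x := by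
  by_cases hp0 : p = 0
  · simp [hp0, Lag]
  set q : ℂ[X] := p.map (algebraMap ℝ ℂ) with hq
  have hsp : q = C q.leadingCoeff * (q.roots.map (X - C ·)).prod :=
    (IsAlgClosed.splits q).eq_prod_roots
  have hq0 : q ≠ 0 := by
    rw [hq]; exact (Polynomial.map_ne_zero_iff (algebraMap ℝ ℂ).injective).2 hp0
  have hroots : ∀ z ∈ q.roots, ((z.re : ℝ) : ℂ) = z := by
    intro z hz
    have h1 : q.eval z = 0 := (mem_roots hq0).1 hz
    have h2 : aeval z p = 0 := by rw [aeval_def, ← eval_map]; exact h1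
    apply Complex.ext
    · simp
    · simp [h z h2]
  have hlead : q.leadingCoeff = algebraMap ℝ ℂ p.leadingCoeff := by
    rw [hq, leadingCoeff_map]
  have key : p = C p.leadingCoeff * ((q.roots.map Complex.re).map (X - C ·)).prod := by
    apply Polynomial.map_injective _ (algebraMap ℝ ℂ).injective
    rw [← hq, Polynomial.map_mul, Polynomial.map_C, Polynomial.map_multiset_prod,
      Multiset.map_map, Multiset.map_map, ← hlead]
    conv_lhs => rw [hsp]
    congr 2
    refine Multiset.map_congr rfl fun z hz => ?_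
    simp only [Function.comp, Polynomial.map_sub, Polynomial.map_X, Polynomial.map_C]
    rw [Complex.coe_algebraMap, hroots z hz]
  rw [key, Lag_mul]
  have h1 := Lag_prod (q.roots.map Complex.re) x
  have h2 : Lag (C p.leadingCoeff) x = 0 := by simp [Lag]
  rw [h2]
  simp only [mul_zero, zero_add]
  positivity

/-- padding by zero. -/
def pad (f : ℕ → ℤ) (n i : ℕ) : ℤ := if i ≤ n then f (n - i) else 0

lemma pad_zero (f : ℕ → ℤ) (n : ℕ) : pad f n 0 = f n := by simp [pad]

lemma pad_succ (f : ℕ → ℤ) (n i : ℕ) : pad f (n + 1) (i + 1) = pad f n i := by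
  simp [pad]

lemma choose_pad (f : ℕ → ℤ) (n i : ℕ) :
    (n.choose i : ℤ) * f (n - i) = (n.choose i : ℤ) * pad f n i := by
  unfold pad
  split_ifs with h
  · rfl
  · rw [Nat.choose_eq_zero_of_lt (by omega)]; simp

/-- the sum in the recurrence. -/
noncomputable def SS (n : ℕ) : ℤ[X] :=
  bellR 5 n + (n.choose 1 : ℤ[X]) * bellR 5 (n - 1) + (n.choose 2 : ℤ[X]) * bellR 5 (n - 2)
    + (n.choose 3 : ℤ[X]) * bellR 5 (n - 3) + (n.choose 4 : ℤ[X]) * bellR 5 (n - 4)

lemma bell_rec (n : ℕ) : bellR 5 (n + 1) = X * SS n := by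
  have h1 : bellR 5 (n + 1) = ∑ j ∈ range (n + 1),
      (n.choose j : ℤ[X]) * (wt 5 (j + 1) * bellR 5 (n - j)) := by
    simp only [bellR_eq]
    rw [z, Finset.sum_range]
  have h2 : ∑ j ∈ range (n + 1), (n.choose j : ℤ[X]) * (wt 5 (j + 1) * bellR 5 (n - j))
      = ∑ j ∈ range (n + 1 + 5), (n.choose j : ℤ[X]) * (wt 5 (j + 1) * bellR 5 (n - j)) := by
    refine sum_subset (range_subset_range.2 (by omega)) fun j _ hj => ?_
    rw [mem_range, not_lt] at hj
    rw [Nat.choose_eq_zero_of_lt (by omega)]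
    simp
  have h3 : ∑ j ∈ range 5, (n.choose j : ℤ[X]) * (wt 5 (j + 1) * bellR 5 (n - j))
      = ∑ j ∈ range (n + 1 + 5), (n.choose j : ℤ[X]) * (wt 5 (j + 1) * bellR 5 (n - j)) := by
    refine sum_subset (range_subset_range.2 (by omega)) fun j _ hj => ?_
    rw [mem_range, not_lt] at hj
    simp [wt, show ¬ (j + 1 ≤ 5) by omega]
  rw [h1, h2, ← h3, SS]
  simp only [sum_range_succ, range_zero, sum_empty, wt, Nat.choose_zero_right]
  norm_num
  ring

/-- values of the polynomial and of its first two derivatives at `x`. -/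
noncomputable def va (x : ℤ) (n : ℕ) : ℤ := (bellR 5 n).eval x
noncomputable def vb (x : ℤ) (n : ℕ) : ℤ := (derivative (bellR 5 n)).eval x
noncomputable def vc (x : ℤ) (n : ℕ) : ℤ := (derivative (derivative (bellR 5 n))).eval x

/-- the linear combination. -/
def lc (n : ℕ) (f : ℕ → ℤ) : ℤ :=
  pad f n 0 + (n.choose 1 : ℤ) * pad f n 1 + (n.choose 2 : ℤ) * pad f n 2
    + (n.choose 3 : ℤ) * pad f n 3 + (n.choose 4 : ℤ) * pad f n 4

lemma SS_eval (x : ℤ) (n : ℕ) : (SS n).eval x = lc n (va x) := by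
  simp only [SS, lc, ← choose_pad, pad_zero, eval_add, eval_mul, eval_natCast, va]

lemma SS_eval' (x : ℤ) (n : ℕ) : (derivative (SS n)).eval x = lc n (vb x) := by
  simp only [SS, lc, ← choose_pad, pad_zero, eval_add, eval_mul, eval_natCast, vb,
    derivative_add, derivative_mul, derivative_natCast, zero_mul, zero_add]

lemma SS_eval'' (x : ℤ) (n : ℕ) : (derivative (derivative (SS n))).eval x = lc n (vc x) := by
  simp only [SS, lc, ← choose_pad, pad_zero, eval_add, eval_mul, eval_natCast, vc,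
    derivative_add, derivative_mul, derivative_natCast, zero_mul, zero_add]

lemma va_rec (x : ℤ) (n : ℕ) : va x (n + 1) = x * lc n (va x) := by
  rw [va, bell_rec, eval_mul, eval_X, SS_eval]

lemma vb_rec (x : ℤ) (n : ℕ) : vb x (n + 1) = lc n (va x) + x * lc n (vb x) := by
  rw [vb, bell_rec, derivative_mul, derivative_X, eval_add, eval_mul, eval_mul, eval_X, SS_eval,
    SS_eval']
  simp

lemma vc_rec (x : ℤ) (n : ℕ) : vc x (n + 1) = 2 * lc n (vb x) + x * lc n (vc x) := by
  rw [vc, bell_rec]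
  simp only [derivative_mul, derivative_X, derivative_add, eval_add, eval_mul, eval_X, SS_eval',
    SS_eval'', one_mul]
  ring

lemma go_spec (x : ℤ) (k n : ℕ) :
    go x k (n.choose 1) (n.choose 2) (n.choose 3) (n.choose 4)
      (pad (va x) n 0) (pad (va x) n 1) (pad (va x) n 2) (pad (va x) n 3) (pad (va x) n 4)
      (pad (vb x) n 0) (pad (vb x) n 1) (pad (vb x) n 2) (pad (vb x) n 3) (pad (vb x) n 4)
      (pad (vc x) n 0) (pad (vc x) n 1) (pad (vc x) n 2) (pad (vc x) n 3) (pad (vc x) n 4)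
    = decide (vb x (n + k) * vb x (n + k) - va x (n + k) * vc x (n + k) < 0) := by
  induction k generalizing n with
  | zero => rw [go]; simp only [pad_zero, add_zero]
  | succ k ih =>
    have e := ih (n + 1)
    rw [show n + 1 + k = n + (k + 1) by ring] at e
    rw [← e, go]
    simp only [force_eq]
    simp only [pad_succ]
    have c1 : ((n + 1).choose 1 : ℤ) = (n.choose 1 : ℤ) + 1 := by simp
    have c2 : ((n + 1).choose 2 : ℤ) = (n.choose 2 : ℤ) + (n.choose 1 : ℤ) := by
      rw [Nat.choose_succ_succ' n 1]; push_cast; ring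
    have c3 : ((n + 1).choose 3 : ℤ) = (n.choose 3 : ℤ) + (n.choose 2 : ℤ) := by
      rw [Nat.choose_succ_succ' n 2]; push_cast; ring
    have c4 : ((n + 1).choose 4 : ℤ) = (n.choose 4 : ℤ) + (n.choose 3 : ℤ) := by
      rw [Nat.choose_succ_succ' n 3]; push_cast; ring
    rw [c1, c2, c3, c4]
    have a1 : pad (va x) (n + 1) 0 = x * lc n (va x) := by rw [pad_zero, va_rec]
    have a2 : pad (vb x) (n + 1) 0 = lc n (va x) + x * lc n (vb x) := by rw [pad_zero, vb_rec]
    have a3 : pad (vc x) (n + 1) 0 = 2 * lc n (vb x) + x * lc n (vc x) := by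
      rw [pad_zero, vc_rec]
    rw [a1, a2, a3]
    rfl

lemma init (f : ℕ → ℤ) : pad f 0 1 = 0 ∧ pad f 0 2 = 0 ∧ pad f 0 3 = 0 ∧ pad f 0 4 = 0 := by
  simp [pad]

lemma bell0 : bellR 5 0 = 1 := by rw [bellR_eq, z]

lemma int_ineq : vb (-1855) 718 * vb (-1855) 718 - va (-1855) 718 * vc (-1855) 718 < 0 := by
  have h := go_spec (-1855) 718 0
  obtain ⟨a1, a2, a3, a4⟩ := init (va (-1855))
  obtain ⟨b1, b2, b3, b4⟩ := init (vb (-1855))
  obtain ⟨c1, c2, c3, c4⟩ := init (vc (-1855))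
  rw [a1, a2, a3, a4, b1, b2, b3, b4, c1, c2, c3, c4, pad_zero, pad_zero, pad_zero] at h
  have va0 : va (-1855) 0 = 1 := by simp [va, bell0]
  have vb0 : vb (-1855) 0 = 0 := by simp [vb, bell0]
  have vc0 : vc (-1855) 0 = 0 := by simp [vc, bell0]
  rw [va0, vb0, vc0] at h
  have hc : go (-1855) 718 ((Nat.choose 0 1 : ℕ) : ℤ) ((Nat.choose 0 2 : ℕ) : ℤ)
    ((Nat.choose 0 3 : ℕ) : ℤ) ((Nat.choose 0 4 : ℕ) : ℤ) 1 0 0 0 0 0 0 0 0 0 0 0 0 0 0
    = go (-1855) 718 0 0 0 0 1 0 0 0 0 0 0 0 0 0 0 0 0 0 0 := rfl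
  rw [hc, comp] at h
  have := of_decide_eq_true h.symm
  simpa using this

theorem nonreal : ∃ z : ℂ, aeval z (bellR 5 718) = 0 ∧ z.im ≠ 0 := by
  by_contra hcon
  push Not at hcon
  set p : ℝ[X] := (bellR 5 718).map (Int.castRingHom ℝ) with hp
  have h1 : ∀ z : ℂ, aeval z p = 0 → z.im = 0 := by
    intro z hz
    apply hcon
    have : aeval z p = aeval z (bellR 5 718) := by
      rw [hp, aeval_def, aeval_def, eval₂_map]
      congr 1
    rw [← this]; exact hz
  have h2 := laguerre p h1 ((-1855 : ℤ) : ℝ)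
  have h3 : Lag p ((-1855 : ℤ) : ℝ)
      = ((vb (-1855) 718 * vb (-1855) 718 - va (-1855) 718 * vc (-1855) 718 : ℤ) : ℝ) := by
    have e1 : ∀ q : ℤ[X], (q.map (Int.castRingHom ℝ)).eval ((-1855 : ℤ) : ℝ)
        = ((q.eval (-1855) : ℤ) : ℝ) := by
      intro q
      rw [eval_intCast_map]
      simp
    rw [Lag, hp, derivative_map, derivative_map, e1, e1, e1]
    push_cast
    rfl
  rw [h3] at h2
  have h4 : (0 : ℤ) ≤ vb (-1855) 718 * vb (-1855) 718 - va (-1855) 718 * vc (-1855) 718 := by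
    exact_mod_cast h2
  linarith [int_ineq]

end Pool.Agent.R784.Bell

namespace Pool.Agent.Results.MP_68af1b_co.RestrictedBell

open Pool.Agent.R784.Bell

/-- **Q1 of MP_68af1b_co is false**: `B_{718,≤5}(x)` has a non-real root; hence it is not true
that for all `m ≥ 1`, `m ∉ {3,4}`, and all `n ≥ 1` all roots of `B_{n,≤m}(x)` are real and
non-positive. -/
theorem result :
    (∃ z : ℂ, aeval z (bellR 5 718) = 0 ∧ z.im ≠ 0) ∧
    ¬ (∀ m n : ℕ, 1 ≤ m → m ≠ 3 → m ≠ 4 → 1 ≤ n →
        ∀ z : ℂ, aeval z (bellR m n) = 0 → z.im = 0 ∧ z.re ≤ 0) := by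
  refine ⟨nonreal, fun h => ?_⟩
  obtain ⟨z, hz, him⟩ := nonreal
  exact him (h 5 718 (by norm_num) (by norm_num) (by norm_num) (by norm_num) z hz).1

end Pool.Agent.Results.MP_68af1b_co.RestrictedBell
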